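import Pool.Agent.H91.TC.Basic

set_option autoImplicit false

open Set Function Topology Metric Filter
open scoped Manifold

namespace Pool.Agent.H1.TSC

open Pool.Agent.H88.CL Pool.Agent.H88.CM Pool.Agent.H91.TC

/-- reduction modulo the lattice -/
theorem red_lat {k : ℕ} (v : E k) : ∃ v0 z : E k, v = v0 + z ∧ z ∈ Lat k ∧ ‖v0‖ ≤ √k := by
  refine ⟨WithLp.toLp 2 fun i => Int.fract (v i), WithLp.toLp 2 fun i => ((⌊v i⌋ : ℤ) : ℝ),
    ?_, fun i => ⟨⌊v i⌋, rfl⟩, ?_⟩
  · ext i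
    change v i = Int.fract (v i) + (⌊v i⌋ : ℤ)
    rw [add_comm, Int.floor_add_fract]
  · rw [EuclideanSpace.norm_eq]
    refine Real.sqrt_le_sqrt ?_
    calc ∑ i, ‖(WithLp.toLp 2 fun i => Int.fract (v i) : E k) i‖ ^ 2 ≤ ∑ _i : Fin k, (1 : ℝ) := by
          refine Finset.sum_le_sum fun i _ => ?_
          change ‖Int.fract (v i)‖ ^ 2 ≤ 1
          rw [Real.norm_eq_abs, sq_abs]
          have h1 := Int.fract_nonneg (v i)
          have h2 := Int.fract_lt_one (v i)
          nlinarith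
      _ = k := by simp

section

variable {n d k : ℕ} {M : Type} [TopologicalSpace M] [ChartedSpace (E n) M]
  {a : E k → M → M} {x : M} {κ : Ch n M} {e : E n ≃L[ℝ] E d × E k} {r : ℝ}

theorem sg_zero (ht : Tube n d k a x κ e r) : sg κ e 0 = x := by
  unfold sg
  have h1 : e.symm ((0 : E d), (0 : E k)) = κ x := by
    rw [← Prod.zero_eq_mk, ← ht.org, e.symm_apply_apply]
  rw [h1, κ.left_inv ht.src]

theorem sg_continuousAt (ht : Tube n d k a x κ e r) : ContinuousAt (sg κ e) 0 := by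
  unfold sg
  have h1 : e.symm ((0 : E d), (0 : E k)) = κ x := by
    rw [← Prod.zero_eq_mk, ← ht.org, e.symm_apply_apply]
  have h2 : ContinuousAt κ.symm (e.symm ((0 : E d), (0 : E k))) := by
    rw [h1]
    exact κ.continuousAt_symm (κ.map_source ht.src)
  have h3 : ContinuousAt (fun u : E d => e.symm (u, (0 : E k))) 0 :=
    (e.symm.continuous.comp (Continuous.prodMk_left (0 : E k))).continuousAt
  exact ContinuousAt.comp (f := fun u : E d => e.symm (u, (0 : E k))) (g := κ.symm) h2 h3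

theorem one_m [T2Space M] (ha : Act n k a) (ht : Tube n d k a x κ e r) {f : M → M}
    (hf : Continuous f) (m : ℕ) (hm : ∀ v : E k, f^[m] x ≠ a v x) :
    ∃ ε : ℝ, 0 < ε ∧ ∀ (u u' : E d), Ret f a κ e r m u u' → ‖u‖ ≤ ε → ‖u'‖ ≤ ε → False := by
  by_contra hcon
  push Not at hcon
  have h1 : ∀ j : ℕ, ∃ (u u' : E d) (v : E k), ‖u‖ ≤ 1 / ((j : ℝ) + 1) ∧
      ‖u'‖ ≤ 1 / ((j : ℝ) + 1) ∧ v ∈ closedBall (0 : E k) (√k) ∧
      f^[m] (sg κ e u) = a v (sg κ e u') := by
    intro j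
    obtain ⟨u, u', ⟨hr1, hr2, v, hv⟩, hu, hu', -⟩ := hcon (1 / ((j : ℝ) + 1)) (by positivity)
    obtain ⟨v0, z, rfl, hz, hv0⟩ := red_lat v
    refine ⟨u, u', v0, hu, hu', ?_, ?_⟩
    · rw [mem_closedBall_zero_iff]
      exact hv0
    · rw [hv, ha.add, ht.per u' hr2 z hz]
  choose u u' v hu hu' hv heq using h1
  obtain ⟨v', -, φ, hφ, hlim⟩ := (isCompact_closedBall (0 : E k) (√k)).tendsto_subseq hv
  have hz : Tendsto (fun j : ℕ => 1 / ((j : ℝ) + 1)) atTop (𝓝 0) :=
    tendsto_one_div_add_atTop_nhds_zero_nat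
  have hu0 : Tendsto u atTop (𝓝 0) := squeeze_zero_norm hu hz
  have hu0' : Tendsto u' atTop (𝓝 0) := squeeze_zero_norm hu' hz
  have hs : Tendsto (fun j => sg κ e (u j)) atTop (𝓝 x) := by
    have := (sg_continuousAt ht).tendsto.comp hu0
    rwa [sg_zero ht] at this
  have hs' : Tendsto (fun j => sg κ e (u' j)) atTop (𝓝 x) := by
    have := (sg_continuousAt ht).tendsto.comp hu0'
    rwa [sg_zero ht] at this
  have hl : Tendsto (fun j => f^[m] (sg κ e (u (φ j)))) atTop (𝓝 (f^[m] x)) :=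
    ((hf.iterate m).tendsto x).comp (hs.comp hφ.tendsto_atTop)
  have hr : Tendsto (fun j => a (v (φ j)) (sg κ e (u' (φ j)))) atTop (𝓝 (a v' x)) :=
    (ha.c2.continuous.tendsto (v', x)).comp
      (hlim.prodMk_nhds (hs'.comp hφ.tendsto_atTop))
  refine hm v' (tendsto_nhds_unique hl ?_)
  refine hr.congr fun j => ?_
  exact (heq (φ j)).symm

end

theorem pf_LAT : T_LAT := by
  intro n d k M _ _ _ _ a x κ e r f ha ht hf hx m0
  induction m0 with
  | zero => exact ⟨1, one_pos, fun m _ _ _ _ _ _ => Nat.zero_le m⟩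
  | succ m0 ih =>
    obtain ⟨ε, hε, h1⟩ := ih
    rcases Nat.eq_zero_or_pos m0 with h0 | h0
    · refine ⟨ε, hε, fun m u u' hm _ _ _ => ?_⟩
      omega
    · obtain ⟨ε', hε', h2⟩ := one_m ha ht hf m0 fun v => hx m0 v h0
      refine ⟨min ε ε', lt_min hε hε', fun m u u' hm hR hu hu' => ?_⟩
      have h3 := h1 m u u' hm hR (hu.trans (min_le_left _ _)) (hu'.trans (min_le_left _ _))
      rcases Nat.lt_or_ge m0 m with h4 | h4
      · exact h4
      · exfalso
        have h5 : m = m0 := le_antisymm h4 h3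
        subst h5
        exact h2 u u' hR (hu.trans (min_le_right _ _)) (hu'.trans (min_le_right _ _))

end Pool.Agent.H1.TSC
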