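import Pool.Agent.H91.TC.Basic

set_option autoImplicit false

open Set Function Topology Metric Filter
open scoped Manifold

namespace Pool.Agent.H1.TSC

open Pool.Agent.H88.CL Pool.Agent.H88.CM Pool.Agent.H91.TC

/-- the choice of `δ0` -/
theorem sel_delta {d k : ℕ} (hdk : d < k) {B c C : ℝ} (hB : 0 < B) (hc : 0 < c) (hC : 1 ≤ C) :
    ∃ δ0 : ℝ, 0 < δ0 ∧ ∀ δ : ℝ, 0 < δ → δ ≤ δ0 → √δ ≤ 2 * B ∧
      (2 * C * B / √δ) ^ d * (√δ) ^ k < c := by
  have hA : 0 < (2 * C * B) ^ d := by positivity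
  set t : ℝ := min (min 1 (2 * B)) (c / (2 * (2 * C * B) ^ d)) with ht
  have ht0 : 0 < t := lt_min (lt_min one_pos (by positivity)) (by positivity)
  refine ⟨t ^ 2, by positivity, fun δ hδ hle => ?_⟩
  have h1 : √δ ≤ t := by
    rw [Real.sqrt_le_left ht0.le]
    exact hle
  have h0 : 0 < √δ := Real.sqrt_pos.2 hδ
  have ht1 : t ≤ 1 := (min_le_left _ _).trans (min_le_left _ _)
  have ht2 : t ≤ 2 * B := (min_le_left _ _).trans (min_le_right _ _)
  have ht3 : t ≤ c / (2 * (2 * C * B) ^ d) := min_le_right _ _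
  refine ⟨h1.trans ht2, ?_⟩
  obtain ⟨j, rfl⟩ : ∃ j, k = d + (j + 1) := ⟨k - d - 1, by omega⟩
  have h2 : (2 * C * B / √δ) ^ d * (√δ) ^ (d + (j + 1)) = (2 * C * B) ^ d * (√δ) ^ (j + 1) := by
    rw [div_pow, pow_add (√δ) d]
    field_simp
  rw [h2]
  have h3 : (√δ) ^ (j + 1) ≤ t := by
    rw [pow_succ]
    calc (√δ) ^ j * √δ ≤ 1 * t := by
          refine mul_le_mul (pow_le_one₀ h0.le (h1.trans ht1)) h1 h0.le one_pos.le
      _ = t := one_mul t
  calc (2 * C * B) ^ d * (√δ) ^ (j + 1) ≤ (2 * C * B) ^ d * (c / (2 * (2 * C * B) ^ d)) :=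
        mul_le_mul_of_nonneg_left (h3.trans ht3) hA.le
    _ = c / 2 := by field_simp
    _ < c := by linarith

theorem pf_SEL (h : T_PIG) : Pool.Agent.H91.TC.T_SEL := by
  intro d k hdk B c hB hc
  obtain ⟨C, hC, hpig⟩ := h d
  obtain ⟨δ0, hδ0, hδ⟩ := sel_delta hdk hB hc hC
  refine ⟨δ0, hδ0, fun P hP m => ?_⟩
  induction m using Nat.strong_induction_on with
  | _ m ih =>
    intro u u' hm hPm hle
    by_cases h0 : u = u'
    · refine ⟨m, u, u', hm, hPm, ?_, le_rfl, Or.inl h0⟩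
      rw [sub_self, norm_zero]
      positivity
    by_cases h1 : ∀ L : Finset ℕ, (∀ l ∈ L, 0 < l ∧ l < m ∧
      ∃ u'', P l u u'' ∧ ‖u'' - u‖ ≤ B * √‖u - u'‖) → (L.card : ℝ) * (√‖u - u'‖) ^ k ≤ c
    · refine ⟨m, u, u', hm, hPm, ?_, le_rfl, Or.inr h1⟩
      rw [sub_self, norm_zero]
      positivity
    push Not at h1
    obtain ⟨L, hL, hLc⟩ := h1
    have hpos : 0 < ‖u - u'‖ := norm_pos_iff.2 (sub_ne_zero.2 h0)
    obtain ⟨hs1, hs2⟩ := hδ _ hpos hle
    have hp : ∀ l, ∃ u'', l ∈ L → P l u u'' ∧ ‖u'' - u‖ ≤ B * √‖u - u'‖ := by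
      intro l
      by_cases hl : l ∈ L
      · obtain ⟨-, -, u'', h3⟩ := hL l hl
        exact ⟨u'', fun _ => h3⟩
      · exact ⟨u, fun h => absurd h hl⟩
    choose p hp using hp
    set s : ℝ := √‖u - u'‖ with hs
    have hs0 : 0 < s := Real.sqrt_pos.2 hpos
    have hss : s * s = ‖u - u'‖ := Real.mul_self_sqrt hpos.le
    have hcard : (C * (B * s) / (‖u - u'‖ / 2)) ^ d < L.card := by
      have e1 : C * (B * s) / (‖u - u'‖ / 2) = 2 * C * B / s := by
        rw [← hss]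
        field_simp
      rw [e1]
      exact lt_of_mul_lt_mul_right (hs2.trans hLc) (by positivity)
    obtain ⟨l, hl, l', hl', hll, hdist⟩ := hpig L p u (B * s) (‖u - u'‖ / 2) (by positivity)
      (by rw [← hss]; nlinarith) (fun l hl => (hp l hl).2) hcard
    have h2 := hP l l' u (p l) (p l') (hp l hl).1 (hp l' hl').1 hll
    obtain ⟨hl0, -⟩ := hL l hl
    obtain ⟨-, hlm, -⟩ := hL l' hl'
    obtain ⟨m1, u1, u1', g1, g2, g3, g4, g5⟩ := ih (l' - l) (by omega) (p l) (p l') (by omega) h2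
      (by linarith)
    refine ⟨m1, u1, u1', g1, g2, ?_, by linarith, g5⟩
    have h3 : √‖p l - p l'‖ ≤ 3 / 4 * s := by
      rw [Real.sqrt_le_left (by positivity)]
      nlinarith
    have h4 : ‖u1 - u‖ ≤ ‖u1 - p l‖ + ‖p l - u‖ := by
      have : u1 - u = (u1 - p l) + (p l - u) := by abel
      rw [this]
      exact norm_add_le _ _
    have h5 := (hp l hl).2
    have h6 : 4 * B * √‖p l - p l'‖ ≤ 4 * B * (3 / 4 * s) :=
      mul_le_mul_of_nonneg_left h3 (by positivity)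
    linarith

end Pool.Agent.H1.TSC
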